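import Mathlib
import Pool.Agent.W770.KP.Stm

/-!
# Sum of the per-line inequality over all lines in a direction
-/

set_option autoImplicit false

open scoped Classical

namespace Pool.Agent.W287.KP

open Pool.Agent.W770.KP

theorem ls (hP : S_PLL) : S_LS := by
  intro n k hk hkn
  obtain ⟨C, hC, hPLL⟩ := hP n k hk hkn
  refine ⟨C, hC, ?_⟩
  intro F E _ _ _ _ _ v hv Λ B d hd f hf0 hf
  have hq : (0 : ℝ) < (Fintype.card F : ℝ) := by exact_mod_cast Fintype.card_pos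
  obtain ⟨D, hD⟩ : ∃ D : ℤ → ℝ, ∀ l, D l =
      ∑ l' ∈ Λ, (2:ℝ) ^ (-|l - l'|) * ((4:ℝ) ^ l' * (d l' : ℝ)) := ⟨_, fun l => rfl⟩
  obtain ⟨w, hw⟩ : ∃ w : E → ℤ → ℝ, ∀ x l, w x l =
      ((Finset.univ.filter (fun t : F => x + t • v ∈ B l)).card : ℝ) := ⟨_, fun x l => rfl⟩
  have hD0 : ∀ l, 0 ≤ D l := by
    intro l
    rw [hD]
    exact Finset.sum_nonneg (fun l' _ => by positivity)
  have hD2 : ∀ l, D l ≤ 2 * D (l + 1) := by
    intro l
    rw [hD, hD, Finset.mul_sum]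
    refine Finset.sum_le_sum (fun l' _ => ?_)
    have h1 : (2:ℝ) ^ (-|l - l'|) ≤ 2 * (2:ℝ) ^ (-|l + 1 - l'|) := by
      have h2 : (2:ℝ) * (2:ℝ) ^ (-|l + 1 - l'|) = (2:ℝ) ^ (1 + -|l + 1 - l'|) := by
        rw [zpow_add₀ (by norm_num), zpow_one]
      rw [h2]
      apply zpow_le_zpow_right₀ (by norm_num)
      have h3 : |l + 1 - l'| ≤ |l - l'| + 1 := by
        have h4 := abs_add_le (l - l') 1
        rw [abs_one] at h4
        have h5 : l + 1 - l' = l - l' + 1 := by ring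
        rw [h5]
        exact h4
      linarith
    have h6 : (0:ℝ) ≤ (4:ℝ) ^ l' * (d l' : ℝ) := by positivity
    have h7 := mul_le_mul_of_nonneg_right h1 h6
    linarith
  have hD4 : ∀ x, ∀ l ∈ Λ, (4:ℝ) ^ l * w x l ≤ D l := by
    intro x l hl
    have h1 : (2:ℝ) ^ (-|l - l|) * ((4:ℝ) ^ l * (d l : ℝ)) ≤ D l := by
      rw [hD]
      exact Finset.single_le_sum (f := fun l' => (2:ℝ) ^ (-|l - l'|) * ((4:ℝ) ^ l' * (d l' : ℝ)))
        (fun l' _ => by positivity) hl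
    rw [sub_self, abs_zero, neg_zero, zpow_zero, one_mul] at h1
    refine le_trans ?_ h1
    rw [hw]
    have h2 : ((Finset.univ.filter (fun t : F => x + t • v ∈ B l)).card : ℝ) ≤ (d l : ℝ) := by
      exact_mod_cast hd l hl x
    exact mul_le_mul_of_nonneg_left h2 (by positivity)
  have hline : ∀ x : E, (∑ t : F, f (x + t • v)) ^ ((n:ℝ) / (k:ℝ)) ≤
      C * ∑ l ∈ Λ, (D l) ^ ((n:ℝ) / (k:ℝ) - 1) * ((4:ℝ) ^ (l * ((n:ℤ) + 1)) * w x l) := by
    intro x
    have h1 := hPLL Λ (fun l => w x l) D (fun l => by rw [hw]; positivity) hD0 hD2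
      (fun l hl => hD4 x l hl)
    refine le_trans ?_ h1
    apply Real.rpow_le_rpow (Finset.sum_nonneg (fun t _ => hf0 _)) _ (by positivity)
    calc ∑ t : F, f (x + t • v) ≤ ∑ t : F, ∑ l ∈ Λ,
          (if x + t • v ∈ B l then (4:ℝ) ^ (l * ((k:ℤ) + 1)) else 0) :=
          Finset.sum_le_sum (fun t _ => hf _)
      _ = ∑ l ∈ Λ, (4:ℝ) ^ (l * ((k:ℤ) + 1)) * w x l := by
          rw [Finset.sum_comm]
          refine Finset.sum_congr rfl (fun l _ => ?_)
          rw [← Finset.sum_filter, Finset.sum_const, nsmul_eq_mul, hw, mul_comm]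
  have hsum : ∀ l, ∑ x : E, w x l = (Fintype.card F : ℝ) * ((B l).card : ℝ) := by
    intro l
    have h1 : ∀ x : E, w x l = ∑ t : F, if x + t • v ∈ B l then (1:ℝ) else 0 := by
      intro x
      rw [hw, Finset.sum_boole]
    rw [Finset.sum_congr rfl (fun x _ => h1 x), Finset.sum_comm]
    have h2 : ∀ t : F, ∑ x : E, (if x + t • v ∈ B l then (1:ℝ) else 0) = ((B l).card : ℝ) := by
      intro t
      rw [Finset.sum_boole]
      congr 1
      refine Finset.card_bij (fun x _ => x + t • v) ?_ ?_ ?_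
      · intro x hx
        exact (Finset.mem_filter.1 hx).2
      · intro x _ y _ hxy
        exact add_right_cancel hxy
      · intro y hy
        refine ⟨y - t • v, ?_, sub_add_cancel y (t • v)⟩
        rw [Finset.mem_filter]
        refine ⟨Finset.mem_univ _, ?_⟩
        rw [sub_add_cancel]
        exact hy
    rw [Finset.sum_congr rfl (fun t _ => h2 t), Finset.sum_const, Finset.card_univ, nsmul_eq_mul]
  rw [div_le_iff₀ hq]
  calc ∑ x : E, (∑ t : F, f (x + t • v)) ^ ((n:ℝ) / (k:ℝ))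
      ≤ ∑ x : E, C * ∑ l ∈ Λ, (D l) ^ ((n:ℝ) / (k:ℝ) - 1) *
          ((4:ℝ) ^ (l * ((n:ℤ) + 1)) * w x l) := Finset.sum_le_sum (fun x _ => hline x)
    _ = C * ∑ l ∈ Λ, (D l) ^ ((n:ℝ) / (k:ℝ) - 1) *
          ((4:ℝ) ^ (l * ((n:ℤ) + 1)) * ∑ x : E, w x l) := by
        rw [← Finset.mul_sum, Finset.sum_comm]
        congr 1
        refine Finset.sum_congr rfl (fun l _ => ?_)
        rw [Finset.mul_sum, Finset.mul_sum]
    _ = _ := by
        rw [mul_assoc, Finset.sum_mul]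
        congr 1
        refine Finset.sum_congr rfl (fun l _ => ?_)
        rw [hsum, hD]
        ring

end Pool.Agent.W287.KP
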